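import Pool.Agent.K1H88.T3.Stm

set_option autoImplicit false

/-! Project T3: `S_MUL`, `S_SGN`, `S_BOX`. -/

namespace Pool.Agent.K1H78.T3

open Pool.Agent.K1H88.T3

theorem t_MUL : S_MUL := by
  intro a b a' b' h h' h4 h6
  have ha : a ≠ 0 := by
    rintro rfl
    exact h.1 (dvd_zero 3)
  have ha' : a' ≠ 0 := by
    rintro rfl
    exact h'.1 (dvd_zero 3)
  have q1 : (a' ^ 2) ^ 4 - 6 * F4 a b * (a' ^ 2) ^ 2 - 8 * F6 a b * a' ^ 2 - 3 * F4 a b ^ 2 = 0 := by
    rw [h4, h6]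
    unfold F4 F6
    ring
  have q2 : (a' ^ 2 - a ^ 2) * (1728 * b ^ 2 + 144 * a * (a' ^ 2 - a ^ 2) * b +
      (a' ^ 2 - a ^ 2) ^ 2 * (a' ^ 2 + 3 * a ^ 2)) = 0 := by
    rw [← q1]
    unfold F4 F6
    ring
  have hsq : a' ^ 2 = a ^ 2 := by
    rcases mul_eq_zero.mp q2 with h0 | h0
    · linarith
    · by_contra hne
      have hZ : 0 < (a' ^ 2 - a ^ 2) ^ 2 := by
        have : a' ^ 2 - a ^ 2 ≠ 0 := sub_ne_zero.mpr hne
        positivity
      have ha2 : 0 < a' ^ 2 := by positivity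
      have h5 : 4 * 1728 * (1728 * b ^ 2 + 144 * a * (a' ^ 2 - a ^ 2) * b +
          (a' ^ 2 - a ^ 2) ^ 2 * (a' ^ 2 + 3 * a ^ 2)) =
          (2 * 1728 * b + 144 * a * (a' ^ 2 - a ^ 2)) ^ 2 + 6912 * (a' ^ 2 * (a' ^ 2 - a ^ 2) ^ 2) := by
        ring
      rw [h0, mul_zero] at h5
      have h7 := mul_pos ha2 hZ
      nlinarith [sq_nonneg (2 * 1728 * b + 144 * a * (a' ^ 2 - a ^ 2))]
  rcases sq_eq_sq_iff_eq_or_eq_neg.mp hsq with h1 | h1
  · left
    refine ⟨h1, ?_⟩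
    rw [h1] at h4
    unfold F4 at h4
    have := mul_left_cancel₀ ha h4
    linarith
  · right
    refine ⟨h1, ?_⟩
    rw [h1] at h4
    unfold F4 at h4
    have h2 : a * (24 * (b + b')) = 0 := by linear_combination -h4
    rcases mul_eq_zero.mp h2 with h3 | h3
    · exact absurd h3 ha
    · linarith

theorem prod_pm {ι : Type} (s : Finset ι) (f : ι → ℤ) (h : ∀ i ∈ s, f i = 1 ∨ f i = -1) :
    (∏ i ∈ s, f i) = 1 ∨ (∏ i ∈ s, f i) = -1 := by
  classical
  induction s using Finset.induction_on with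
  | empty => left; simp
  | insert a s ha ih =>
    rw [Finset.prod_insert ha]
    rcases h a (Finset.mem_insert_self a s) with h1 | h1 <;>
      rcases ih (fun i hi => h i (Finset.mem_insert_of_mem hi)) with h2 | h2 <;>
      rw [h1, h2] <;> simp

theorem t_SGN : S_SGN := by
  intro a b h
  obtain ⟨h3, hb, hE, hco⟩ := h
  have hEE : EE (-a) (-b) = - EE a b := by unfold EE; ring
  refine ⟨⟨fun h => h3 ((dvd_neg).mp h), neg_ne_zero.mpr hb, by rw [hEE]; exact neg_ne_zero.mpr hE,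
    hco.neg_neg⟩, ?_, ?_⟩
  · unfold w
    rw [hEE, Int.natAbs_neg, Int.natAbs_neg]
  · have h1 : (∏ _p ∈ b.natAbs.primeFactors, (-1 : ℤ)) = 1 ∨
        (∏ _p ∈ b.natAbs.primeFactors, (-1 : ℤ)) = -1 := prod_pm _ _ fun _ _ => Or.inr rfl
    have h2 : (∏ p ∈ (EE a b).natAbs.primeFactors, (-ch3 p)) = 1 ∨
        (∏ p ∈ (EE a b).natAbs.primeFactors, (-ch3 p)) = -1 := by
      refine prod_pm _ _ fun p hp => ?_
      have hpp : p.Prime := Nat.prime_of_mem_primeFactors hp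
      have hdvd : p ∣ (EE a b).natAbs := Nat.dvd_of_mem_primeFactors hp
      have hp3 : ¬ 3 ∣ p := by
        intro h
        have hp3 : p = 3 := ((Nat.prime_dvd_prime_iff_eq Nat.prime_three hpp).mp h).symm
        rw [hp3] at hdvd
        have h4 : (3 : ℤ) ∣ EE a b := by
          have := Int.natCast_dvd.mpr hdvd
          exact_mod_cast this
        have h5 : (3 : ℤ) ∣ a ^ 3 := by
          have : a ^ 3 = EE a b + 3 * (9 * b) := by unfold EE; ring
          rw [this]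
          exact dvd_add h4 (dvd_mul_right _ _)
        exact h3 (Int.prime_three.dvd_of_dvd_pow h5)
      unfold ch3
      have h6 : p % 3 = 1 ∨ p % 3 = 2 := by omega
      rcases h6 with h6 | h6
      · rw [if_pos h6]
        right
        rfl
      · rw [if_neg (by omega), if_pos h6]
        left
        rfl
    unfold w
    rcases h1 with h1 | h1 <;> rcases h2 with h2 | h2 <;> rw [h1, h2] <;> simp

theorem t_BOX : S_BOX := by
  intro Y a' b' hY hR
  obtain ⟨h4, h6⟩ := hR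
  set a : ℝ := (a' : ℝ) with ha
  set b : ℝ := (b' : ℝ) with hb
  have e4 : (F4 a' b' : ℝ) = a * (a ^ 3 - 24 * b) := by
    unfold F4
    push_cast
    rfl
  have e6 : (F6 a' b' : ℝ) = -(a ^ 6 - 36 * a ^ 3 * b + 216 * b ^ 2) := by
    unfold F6
    push_cast
    rfl
  rw [e4] at h4
  rw [e6, abs_neg] at h6
  have hY2 : 0 ≤ Y ^ 2 := by positivity
  have hY4 : 0 ≤ Y ^ 4 := by positivity
  have hY6 : 0 ≤ Y ^ 6 := by positivity
  have hA : |a| ≤ 2 * Y := by
    by_contra hlt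
    rw [not_le] at hlt
    have hA1 : 4 * Y ^ 2 < a ^ 2 := by
      have := sq_lt_sq' (by linarith [abs_nonneg a] : -(|a|) < 2 * Y) hlt
      rw [sq_abs] at this
      nlinarith
    set A : ℝ := a ^ 2 with hAd
    set f : ℝ := a * (a ^ 3 - 24 * b) with hf
    set g : ℝ := a ^ 6 - 36 * a ^ 3 * b + 216 * b ^ 2 with hg
    have hA0 : 0 < A := by linarith
    have hf1 : |f| ≤ A ^ 2 / 16 := by
      have h1 : (4 * Y ^ 2) ^ 2 ≤ A ^ 2 := pow_le_pow_left₀ (by positivity) hA1.le 2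
      nlinarith
    have hg1 : |g| ≤ A ^ 3 / 64 := by
      have h1 : (4 * Y ^ 2) ^ 3 ≤ A ^ 3 := pow_le_pow_left₀ (by positivity) hA1.le 3
      nlinarith
    have hid : 576 * A * (-g) = 72 * A ^ 4 - 432 * A ^ 2 * f - 216 * f ^ 2 := by
      rw [hAd, hf, hg]
      ring
    have hf2 : f ≤ A ^ 2 / 16 := (abs_le.mp hf1).2
    have hf3 : f ^ 2 ≤ (A ^ 2 / 16) ^ 2 := by
      have := sq_le_sq' (by linarith [(abs_le.mp hf1).1] : -(A ^ 2 / 16) ≤ f) hf2
      exact this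
    have hg2 : -g ≤ A ^ 3 / 64 := by linarith [(abs_le.mp hg1).1]
    have h7 : 576 * A * (-g) ≤ 9 * A ^ 4 := by
      have := mul_le_mul_of_nonneg_left hg2 (by positivity : (0 : ℝ) ≤ 576 * A)
      nlinarith
    have h8 : 432 * A ^ 2 * f ≤ 27 * A ^ 4 := by
      have := mul_le_mul_of_nonneg_left hf2 (by positivity : (0 : ℝ) ≤ 432 * A ^ 2)
      nlinarith
    have hA4 : 0 < A ^ 4 := by positivity
    nlinarith
  refine ⟨hA, ?_⟩
  rcases le_or_gt Y |a| with hcase | hcase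
  · rcases eq_or_lt_of_le (abs_nonneg a) with h0 | h0
    · have hY0 : Y = 0 := le_antisymm (by linarith) hY
      have ha0 : a = 0 := abs_eq_zero.mp h0.symm
      rw [ha0, hY0] at h6
      have : b = 0 := by
        have h9 : |216 * b ^ 2| ≤ 0 := by simpa using h6
        have h10 : 216 * b ^ 2 = 0 := abs_eq_zero.mp (le_antisymm h9 (abs_nonneg _))
        have h11 : b ^ 2 = 0 := by linarith
        exact pow_eq_zero_iff (two_ne_zero) |>.mp h11
      rw [this, hY0]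
      simp
    · have h1 : 24 * |a| * |b| ≤ |a| ^ 4 + Y ^ 4 := by
        have h2 : 24 * a * b = a ^ 4 - a * (a ^ 3 - 24 * b) := by ring
        have h3 : 24 * |a| * |b| = |24 * a * b| := by
          rw [abs_mul, abs_mul]
          norm_num
        rw [h3, h2]
        calc |a ^ 4 - a * (a ^ 3 - 24 * b)| ≤ |a ^ 4| + |a * (a ^ 3 - 24 * b)| := abs_sub _ _
          _ ≤ |a| ^ 4 + Y ^ 4 := by rw [abs_pow]; linarith
      have h2 : |a| ^ 4 ≤ 8 * Y ^ 3 * |a| := by
        have h3 : |a| ^ 3 ≤ (2 * Y) ^ 3 := pow_le_pow_left₀ (abs_nonneg a) hA 3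
        have h4 := mul_le_mul_of_nonneg_right h3 (abs_nonneg a)
        nlinarith
      have h3 : Y ^ 4 ≤ Y ^ 3 * |a| := by
        have := mul_le_mul_of_nonneg_left hcase (by positivity : (0 : ℝ) ≤ Y ^ 3)
        nlinarith
      have h5 : |a| * (24 * |b|) ≤ |a| * (9 * Y ^ 3) := by nlinarith
      have h7 := le_of_mul_le_mul_left h5 h0
      have h8 : 0 ≤ Y ^ 3 := by positivity
      linarith
  · have h1 : |a| ^ 3 ≤ Y ^ 3 := pow_le_pow_left₀ (abs_nonneg a) hcase.le 3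
    have h2 : a ^ 6 ≤ Y ^ 6 := by
      have := pow_le_pow_left₀ (abs_nonneg a) hcase.le 6
      rwa [show |a| ^ 6 = a ^ 6 from by rw [← abs_pow]; exact abs_of_nonneg (by positivity)] at this
    have h3 : (b - a ^ 3 / 12) ^ 2 ≤ (Y ^ 3 / 12) ^ 2 := by
      have h5 := (abs_le.mp h6).2
      nlinarith
    have h5 : |b - a ^ 3 / 12| ≤ Y ^ 3 / 12 := abs_le_of_sq_le_sq h3 (by positivity)
    have h7 : |a ^ 3 / 12| ≤ Y ^ 3 / 12 := by
      rw [abs_div, abs_pow]
      norm_num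
      linarith
    have h8 : 0 ≤ Y ^ 3 := by positivity
    calc |b| = |(b - a ^ 3 / 12) + a ^ 3 / 12| := by rw [sub_add_cancel]
      _ ≤ |b - a ^ 3 / 12| + |a ^ 3 / 12| := abs_add_le _ _
      _ ≤ Y ^ 3 := by linarith

end Pool.Agent.K1H78.T3
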